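import Pool.Agent.V11323.BRWAn

/-!
# Irreducible branching random walks with finitely many fixed points
-/

set_option autoImplicit false

open MeasureTheory ProbabilityTheory Filter Topology
open scoped ENNReal NNReal

namespace Pool.Agent.Results.MP_087ef2_pr.FiniteFixedPoints

open Pool.Agent.V11323.BRW

/-- For every irreducible branching random walk on a countable set whose generating function has
finitely many fixed points, every fixed point is an extinction probability vector, and
conversely. -/
theorem result (X : Type) [Countable X] (μ : X → PMF (X →₀ ℕ)) (hirr : Irred μ)
    (hfin : (FG μ).Finite) : FG μ = EG μ := by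
  apply Set.Subset.antisymm
  · intro z hz
    by_cases hne : z = fun _ => 1
    · rw [hne, ← ext_empty μ]
      exact ⟨∅, rfl⟩
    · refine ⟨Set.univ, ?_⟩
      funext x
      refine le_antisymm (ext_univ_le μ hz x) ?_
      rcases finite_or_infinite X with h | h
      · exact finite_case μ hirr hfin hz hne x
      · exact infinite_case μ hirr hfin hz hne x
  · rintro _ ⟨A, rfl⟩
    exact ext_mem μ A

end Pool.Agent.Results.MP_087ef2_pr.FiniteFixedPoints
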